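import Mathlib

/-! Counting lemmas for symmetric ternary relations (3-uniform hypergraphs). -/

set_option autoImplicit false

namespace Pool.Agent.H360Z.Exp

open Finset

variable {α : Type} [Fintype α] [DecidableEq α]

/-- A symmetric ternary relation on distinct points. -/
structure Tri (T : α → α → α → Prop) : Prop where
  s12 : ∀ {x y z}, T x y z → T y x z
  s23 : ∀ {x y z}, T x y z → T x z y
  ne : ∀ {x y z}, T x y z → x ≠ y

open Classical in
/-- points completing a pair to a triple -/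
noncomputable def NN (T : α → α → α → Prop) (x y : α) : Finset α := univ.filter (fun z => T x y z)

/-- shadow graph -/
def Ad (T : α → α → α → Prop) (x y : α) : Prop := ∃ z, T x y z

open Classical in
/-- neighbourhood in the shadow graph -/
noncomputable def AA (T : α → α → α → Prop) (x : α) : Finset α := univ.filter (fun y => Ad T x y)

omit [DecidableEq α] in
theorem mem_NN {T : α → α → α → Prop} {x y z : α} : z ∈ NN T x y ↔ T x y z := by
  simp [NN]

omit [DecidableEq α] in
theorem mem_AA {T : α → α → α → Prop} {x y : α} : y ∈ AA T x ↔ Ad T x y := by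
  simp [AA]

theorem dc {β γ : Type} (s : Finset β) (t : Finset γ) (r : β → γ → Prop)
    [∀ b c, Decidable (r b c)] :
    ∑ b ∈ s, (t.filter (fun c => r b c)).card = ∑ c ∈ t, (s.filter (fun b => r b c)).card := by
  simp only [card_filter]
  exact sum_comm

theorem link_sq {T : α → α → α → Prop} (hT : Tri T) {t : ℕ}
    (h : ∀ a b c, a ≠ b → a ≠ c → b ≠ c → (AA T a ∩ AA T b ∩ AA T c).card ≤ t) (v : α) :
    ∑ x ∈ AA T v, (NN T v x).card ^ 2 ≤
      ∑ x ∈ AA T v, (NN T v x).card + t * (AA T v).card ^ 2 := by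
  classical
  have h1 : ∀ x, (NN T v x).card ^ 2 =
      ((AA T v ×ˢ AA T v).filter (fun p : α × α => T v x p.1 ∧ T v x p.2)).card := by
    intro x
    rw [sq, ← card_product]
    congr 1
    ext ⟨y, z⟩
    simp only [mem_product, mem_NN, mem_filter, mem_AA]
    exact ⟨fun h => ⟨⟨⟨x, hT.s23 h.1⟩, ⟨x, hT.s23 h.2⟩⟩, h⟩, fun h => h.2⟩
  simp only [h1]
  rw [dc]
  have h2 : ∀ p ∈ AA T v ×ˢ AA T v,
      ((AA T v).filter (fun x => T v x p.1 ∧ T v x p.2)).card ≤
        (if p.1 = p.2 then (NN T v p.1).card else 0) + t := by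
    rintro ⟨y, z⟩ hp
    simp only [mem_product, mem_AA] at hp
    by_cases e : y = z
    · simp only [e, if_true]
      refine le_trans (card_le_card ?_) (Nat.le_add_right _ _)
      intro x hx
      exact mem_NN.mpr (hT.s23 (mem_filter.mp hx).2.1)
    · simp only [e, if_false, zero_add]
      obtain ⟨⟨_, h1⟩, ⟨_, h2⟩⟩ := hp
      refine le_trans (card_le_card ?_) (h v y z (hT.ne h1) (hT.ne h2) e)
      intro x hx
      obtain ⟨hx1, hx2, hx3⟩ := mem_filter.mp hx
      simp only [mem_inter, mem_AA]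
      exact ⟨⟨mem_AA.mp hx1, ⟨v, hT.s23 (hT.s12 (hT.s23 hx2))⟩⟩,
        ⟨v, hT.s23 (hT.s12 (hT.s23 hx3))⟩⟩
  refine le_trans (sum_le_sum h2) ?_
  rw [sum_add_distrib, sum_const, card_product, smul_eq_mul, sum_product]
  refine Nat.add_le_add (le_of_eq (sum_congr rfl fun y hy => ?_)) (le_of_eq (by ring))
  simp only [sum_ite_eq, hy, if_true]

theorem link_bound {T : α → α → α → Prop} (hT : Tri T) {t : ℕ}
    (h : ∀ a b c, a ≠ b → a ≠ c → b ≠ c → (AA T a ∩ AA T b ∩ AA T c).card ≤ t) (v : α)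
    (n : ℕ) : n * ∑ x, (NN T v x).card ≤
      n * (AA T v).card + n ^ 2 + t * (AA T v).card ^ 3 := by
  classical
  have h0 : ∑ x, (NN T v x).card = ∑ x ∈ AA T v, (NN T v x).card := by
    symm
    refine sum_subset (subset_univ _) fun x _ hx => ?_
    rw [card_eq_zero, eq_empty_iff_forall_notMem]
    intro z hz
    exact hx (mem_AA.mpr ⟨z, mem_NN.mp hz⟩)
  rw [h0]
  have h1 := link_sq hT h v
  have h2 : (∑ x ∈ AA T v, (NN T v x).card) ^ 2 ≤
      (AA T v).card * ∑ x ∈ AA T v, (NN T v x).card ^ 2 := sq_sum_le_card_mul_sum_sq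
  generalize ∑ x ∈ AA T v, (NN T v x).card = S at *
  generalize ∑ x ∈ AA T v, (NN T v x).card ^ 2 = Q at *
  generalize (AA T v).card = D at *
  have h3 : S ^ 2 ≤ D * S + t * D ^ 3 := by
    calc S ^ 2 ≤ D * Q := h2
      _ ≤ D * (S + t * D ^ 2) := Nat.mul_le_mul_left _ h1
      _ = D * S + t * D ^ 3 := by ring
  rcases le_total S D with h4 | h4
  · have := Nat.mul_le_mul_left n h4
    omega
  · obtain ⟨R, rfl⟩ := Nat.exists_eq_add_of_le h4
    have h5 : R ^ 2 ≤ t * D ^ 3 := by nlinarith [Nat.zero_le (D * R)]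
    nlinarith [sq_nonneg ((n : ℤ) - R), Nat.zero_le (n * R)]

theorem cube_bound {T : α → α → α → Prop} {t : ℕ}
    (h : ∀ a b c, a ≠ b → a ≠ c → b ≠ c → (AA T a ∩ AA T b ∩ AA T c).card ≤ t) (hT : Tri T) :
    ∑ v, (AA T v).card ^ 3 ≤ (t + 3) * Fintype.card α ^ 3 := by
  classical
  have h1 : ∀ v, (AA T v).card ^ 3 =
      ((univ : Finset (α × α × α)).filter
        (fun p => Ad T v p.1 ∧ Ad T v p.2.1 ∧ Ad T v p.2.2)).card := by
    intro v
    have : (AA T v).card ^ 3 = (AA T v ×ˢ AA T v ×ˢ AA T v).card := by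
      simp only [card_product]; ring
    rw [this]
    congr 1
    ext ⟨x, y, z⟩
    simp only [mem_product, mem_filter, mem_AA, mem_univ, true_and]
  simp only [h1]
  rw [dc]
  have h2 : ∀ p ∈ (univ : Finset (α × α × α)),
      (univ.filter (fun v => Ad T v p.1 ∧ Ad T v p.2.1 ∧ Ad T v p.2.2)).card ≤
        t + ((if p.1 = p.2.1 then Fintype.card α else 0) +
          (if p.1 = p.2.2 then Fintype.card α else 0) +
          (if p.2.1 = p.2.2 then Fintype.card α else 0)) := by
    rintro ⟨x, y, z⟩ -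
    have h0 := card_le_univ (univ.filter (fun v => Ad T v x ∧ Ad T v y ∧ Ad T v z))
    by_cases e1 : x = y
    · simp only [if_pos e1]; omega
    by_cases e2 : x = z
    · simp only [if_pos e2]; omega
    by_cases e3 : y = z
    · simp only [if_pos e3]; omega
    refine le_trans (le_trans (card_le_card ?_) (h x y z e1 e2 e3)) (Nat.le_add_right _ _)
    intro v hv
    obtain ⟨-, ⟨_, a⟩, ⟨_, b⟩, ⟨_, c⟩⟩ := mem_filter.mp hv
    simp only [mem_inter, mem_AA]
    exact ⟨⟨⟨_, hT.s12 a⟩, ⟨_, hT.s12 b⟩⟩, ⟨_, hT.s12 c⟩⟩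
  refine le_trans (sum_le_sum h2) (le_of_eq ?_)
  simp only [sum_add_distrib, Fintype.sum_prod_type, sum_const, card_univ, smul_eq_mul,
    sum_ite_eq, mem_univ, if_true, Fintype.card_prod]
  have : (∑ x : α, ∑ y : α, ∑ _z : α, if x = y then Fintype.card α else 0) =
      Fintype.card α ^ 3 := by
    have e : ∀ x y : α, (∑ _z : α, if x = y then Fintype.card α else 0) =
        if x = y then Fintype.card α * Fintype.card α else 0 := by
      intro x y
      split_ifs <;> simp
    simp only [e, sum_ite_eq, mem_univ, if_true, sum_const, card_univ, smul_eq_mul]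
    ring
  rw [this]
  ring

/-- Case (a): no three points with more than `t` common shadow neighbours. -/
theorem count_a {T : α → α → α → Prop} (hT : Tri T) {t : ℕ}
    (h : ∀ a b c, a ≠ b → a ≠ c → b ≠ c → (AA T a ∩ AA T b ∩ AA T c).card ≤ t) :
    ∑ v, ∑ x, (NN T v x).card ≤ (2 + t * (t + 3)) * Fintype.card α ^ 2 := by
  rcases Nat.eq_zero_or_pos (Fintype.card α) with h0 | h0
  · have : IsEmpty α := Fintype.card_eq_zero_iff.mp h0
    simp
  refine Nat.le_of_mul_le_mul_left ?_ h0
  rw [mul_sum]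
  refine le_trans (sum_le_sum fun v _ => link_bound hT h v _) ?_
  rw [sum_add_distrib, sum_add_distrib, ← mul_sum, ← mul_sum, sum_const, card_univ, smul_eq_mul]
  have h1 := cube_bound h hT
  have h2 : ∑ v, (AA T v).card ≤ Fintype.card α * Fintype.card α := by
    refine le_trans (sum_le_sum fun v _ => card_le_univ (AA T v)) (le_of_eq ?_)
    simp
  have h3 := Nat.mul_le_mul_left t h1
  have h4 := Nat.mul_le_mul_left (Fintype.card α) h2
  nlinarith

/-- Case (b). -/
theorem count_b {T : α → α → α → Prop} (hT : Tri T) {t : ℕ}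
    (hf : ∀ x y z, T x y z → 2 ≤ (NN T x y).card)
    (h : ∀ a b x y, a ≠ b → T x y a → T x y b → (AA T a ∩ AA T b).card ≤ t) :
    ∑ v, ∑ x, (NN T v x).card ≤ t ^ 2 * Fintype.card α ^ 2 := by
  classical
  rw [← Fintype.sum_prod_type']
  have h1 : ∀ p ∈ (univ : Finset (α × α)), (NN T p.1 p.2).card ≤
      ((univ : Finset (α × α)).filter
        (fun q => q.1 ≠ q.2 ∧ T p.1 p.2 q.1 ∧ T p.1 p.2 q.2)).card := by
    rintro ⟨x, y⟩ -
    refine le_trans (card_le_card ?_) (card_image_le (f := Prod.fst))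
    intro a ha
    obtain ⟨b, hb, hab⟩ := exists_mem_ne (hf x y a (mem_NN.mp ha)) a
    exact mem_image.mpr ⟨(a, b), mem_filter.mpr
      ⟨mem_univ _, hab.symm, mem_NN.mp ha, mem_NN.mp hb⟩, rfl⟩
  refine le_trans (sum_le_sum h1) ?_
  rw [dc]
  have h2 : ∀ q ∈ (univ : Finset (α × α)), ((univ : Finset (α × α)).filter
        (fun p => q.1 ≠ q.2 ∧ T p.1 p.2 q.1 ∧ T p.1 p.2 q.2)).card ≤ t ^ 2 := by
    rintro ⟨a, b⟩ -
    rcases ((univ : Finset (α × α)).filter
        (fun p => a ≠ b ∧ T p.1 p.2 a ∧ T p.1 p.2 b)).eq_empty_or_nonempty with e | ⟨p, hp⟩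
    · simp only [e, card_empty]; exact Nat.zero_le _
    obtain ⟨-, hab, h3, h4⟩ := mem_filter.mp hp
    have h5 := h a b _ _ hab h3 h4
    refine le_trans (card_le_card (t := (AA T a ∩ AA T b) ×ˢ (AA T a ∩ AA T b)) ?_) ?_
    · rintro ⟨x, y⟩ hq
      obtain ⟨-, -, h6, h7⟩ := mem_filter.mp hq
      simp only [mem_product, mem_inter, mem_AA]
      exact ⟨⟨⟨_, hT.s12 (hT.s23 h6)⟩, ⟨_, hT.s12 (hT.s23 h7)⟩⟩,
        ⟨⟨_, hT.s23 (hT.s12 (hT.s23 h6))⟩, ⟨_, hT.s23 (hT.s12 (hT.s23 h7))⟩⟩⟩
    · rw [card_product, sq]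
      exact Nat.mul_le_mul h5 h5
  refine le_trans (sum_le_sum h2) (le_of_eq ?_)
  simp only [sum_const, card_univ, Fintype.card_prod, smul_eq_mul]
  ring

/-- Full subfamilies. -/
theorem exists_full (H : Finset (Finset α)) (h3 : ∀ e ∈ H, e.card = 3) (d : ℕ) :
    ∃ K ⊆ H, H.card ≤ K.card + d * Fintype.card α ^ 2 ∧
      ∀ x y z, ({x, y, z} : Finset α) ∈ K →
        d ≤ (NN (fun x y z => ({x, y, z} : Finset α) ∈ K) x y).card := by
  classical
  let sh : Finset (Finset α) → Finset (α × α) := fun K =>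
    univ.filter (fun p => ∃ z, ({p.1, p.2, z} : Finset α) ∈ K)
  obtain ⟨K, hK, hmax⟩ := exists_max_image H.powerset
    (fun K => (K.card : ℤ) - d * (sh K).card) ⟨H, mem_powerset_self H⟩
  have hKH := mem_powerset.mp hK
  refine ⟨K, hKH, ?_, fun x y z hxyz => ?_⟩
  · have h1 := hmax H (mem_powerset_self H)
    have h2 : (sh H).card ≤ Fintype.card α ^ 2 := by
      refine le_trans (card_le_univ _) (le_of_eq ?_)
      simp [sq]
    have h4 : (d : ℤ) * (sh H).card ≤ d * (Fintype.card α : ℤ) ^ 2 :=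
      mul_le_mul_of_nonneg_left (by exact_mod_cast h2) (Nat.cast_nonneg _)
    have h5 : (0 : ℤ) ≤ d * (sh K).card := by positivity
    have : (H.card : ℤ) ≤ K.card + d * (Fintype.card α : ℤ) ^ 2 := by linarith
    exact_mod_cast this
  · by_contra hlt
    push Not at hlt
    have hxy : x ≠ y := by
      rintro rfl
      have := h3 _ (hKH hxyz)
      rw [insert_eq_of_mem (mem_insert_self _ _)] at this
      have h4 : ({x, z} : Finset α).card ≤ 2 := card_le_two
      omega
    let K' := K.filter (fun e => ¬ (x ∈ e ∧ y ∈ e))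
    have h1 := hmax K' (mem_powerset.mpr ((filter_subset _ _).trans hKH))
    have h2 : (sh K').card < (sh K).card := by
      refine card_lt_card ⟨?_, fun hs => ?_⟩
      · intro p hp
        obtain ⟨w, hw⟩ := (mem_filter.mp hp).2
        exact mem_filter.mpr ⟨mem_univ _, w, (mem_filter.mp hw).1⟩
      · have : (x, y) ∈ sh K' := hs (mem_filter.mpr ⟨mem_univ _, z, hxyz⟩)
        obtain ⟨w, hw⟩ := (mem_filter.mp this).2
        exact (mem_filter.mp hw).2 ⟨by simp, by simp⟩
    have h4 : (K.filter (fun e => x ∈ e ∧ y ∈ e)).card ≤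
        (NN (fun x y z => ({x, y, z} : Finset α) ∈ K) x y).card := by
      refine le_trans (card_le_card ?_)
        (card_image_le (f := fun w => ({x, y, w} : Finset α)))
      intro e he
      obtain ⟨he1, he2, he3⟩ := mem_filter.mp he
      have hc := h3 e (hKH he1)
      have hsub : ({x, y} : Finset α) ⊆ e := by
        intro a ha
        simp only [mem_insert, mem_singleton] at ha
        rcases ha with rfl | rfl <;> assumption
      have hc2 : (e \ {x, y}).card = 1 := by
        rw [card_sdiff_of_subset hsub, hc, card_pair hxy]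
      obtain ⟨w, hw⟩ := card_eq_one.mp hc2
      have : e = {x, y, w} := by
        rw [← union_sdiff_of_subset hsub, hw]
        ext a; simp
      exact mem_image.mpr ⟨w, mem_NN.mpr (this ▸ he1), this.symm⟩
    have h5 := card_filter_add_card_filter_not (s := K) (fun e => x ∈ e ∧ y ∈ e)
    have h6 : (d : ℤ) * ((sh K').card + 1) ≤ d * (sh K).card :=
      mul_le_mul_of_nonneg_left (by exact_mod_cast h2) (Nat.cast_nonneg _)
    have h7 : (K.card : ℤ) < K'.card + d := by
      have : K.card < K'.card + d := by simp only [K']; omega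
      exact_mod_cast this
    linarith

omit [Fintype α] in
theorem tri_of (K : Finset (Finset α)) (h3 : ∀ e ∈ K, e.card = 3) :
    Tri (fun x y z => ({x, y, z} : Finset α) ∈ K) where
  s12 := fun {x y z} h => by rwa [insert_comm]
  s23 := fun {x y z} h => by rwa [pair_comm]
  ne := fun {x y z} h => by
    rintro rfl
    have := h3 _ h
    rw [insert_eq_of_mem (mem_insert_self _ _)] at this
    have h4 : ({x, z} : Finset α).card ≤ 2 := card_le_two
    omega

theorem card_le_cnt (K : Finset (Finset α)) (h3 : ∀ e ∈ K, e.card = 3) :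
    K.card ≤ ∑ v, ∑ x, (NN (fun x y z => ({x, y, z} : Finset α) ∈ K) v x).card := by
  rw [← Fintype.sum_prod_type']
  have : K ⊆ (univ : Finset (α × α)).biUnion (fun p =>
      (NN (fun x y z => ({x, y, z} : Finset α) ∈ K) p.1 p.2).image
        (fun w => ({p.1, p.2, w} : Finset α))) := by
    intro e he
    obtain ⟨x, y, z, -, -, -, rfl⟩ := card_eq_three.mp (h3 e he)
    exact mem_biUnion.mpr ⟨(x, y), mem_univ _, mem_image.mpr ⟨z, mem_NN.mpr he, rfl⟩⟩
  exact le_trans (card_le_card this) (le_trans card_biUnion_le (sum_le_sum fun p _ => card_image_le))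

end Pool.Agent.H360Z.Exp
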