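import Pool.Agent.H360Z.Exp.Cnt

/-! Embedding graphs of crosscut number three into shadows of full 3-graphs. -/

set_option autoImplicit false

namespace Pool.Agent.H360Z.Exp

open Finset

variable {α : Type} [Fintype α] [DecidableEq α] {V : Type} [Fintype V] {G : SimpleGraph V}

omit [Fintype α] in
/-- Distinct representatives of large sets. -/
theorem sdr {ι : Type} [Fintype ι] (W : ι → Finset α) (h : ∀ i, Fintype.card ι ≤ (W i).card) :
    ∃ g : ι → α, Function.Injective g ∧ ∀ i, g i ∈ W i := by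
  refine (all_card_le_biUnion_card_iff_exists_injective W).mp fun s => ?_
  rcases s.eq_empty_or_nonempty with rfl | ⟨i, hi⟩
  · simp
  · exact le_trans (card_le_univ s) (le_trans (h i) (card_le_card (subset_biUnion_of_mem W hi)))

omit [Fintype α] in
/-- Extension of a map on special vertices. -/
theorem extend (R : α → α → Prop) (hR : ∀ x y, R x y → R y x) (S : V → Prop) (f0 : V → α)
    (W : V → Finset α) (hW : ∀ v, 2 * Fintype.card V ≤ (W v).card)
    (hinj : ∀ u v, S u → S v → f0 u = f0 v → u = v)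
    (h1 : ∀ u v, S u → S v → G.Adj u v → R (f0 u) (f0 v))
    (h2 : ∀ u v, S u → ¬ S v → G.Adj u v → ∀ w ∈ W v, R (f0 u) w)
    (h3 : ∀ u v, G.Adj u v → S u ∨ S v) :
    ∃ f : V → α, Function.Injective f ∧ ∀ u v, G.Adj u v → R (f u) (f v) := by
  classical
  obtain ⟨g, hg, hgW⟩ := sdr (fun v => W v \ univ.image f0) (fun v => by
    have a := hW v
    have b : (univ.image f0).card ≤ Fintype.card V := le_trans card_image_le (by simp)
    have c := le_card_sdiff (univ.image f0) (W v)
    omega)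
  have hne : ∀ u v, f0 u ≠ g v := fun u v e =>
    (mem_sdiff.mp (hgW v)).2 (mem_image.mpr ⟨u, mem_univ _, e⟩)
  refine ⟨fun v => if S v then f0 v else g v, fun u v e => ?_, fun u v huv => ?_⟩
  · by_cases hu : S u <;> by_cases hv : S v <;> simp only [hu, hv, if_true, if_false] at e
    · exact hinj u v hu hv e
    · exact absurd e (hne _ _)
    · exact absurd e.symm (hne _ _)
    · exact hg e
  · by_cases hu : S u <;> by_cases hv : S v <;> simp only [hu, hv, if_true, if_false]
    · exact h1 u v hu hv huv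
    · exact h2 u v hu hv huv _ (mem_sdiff.mp (hgW v)).1
    · exact hR _ _ (h2 v u hv hu huv.symm _ (mem_sdiff.mp (hgW u)).1)
    · rcases h3 u v huv with h | h
      exacts [absurd h hu, absurd h hv]

omit [Fintype α] [DecidableEq α] in
theorem Tri.ad_symm {T : α → α → α → Prop} (hT : Tri T) (x y : α) (h : Ad T x y) : Ad T y x :=
  let ⟨z, hz⟩ := h; ⟨z, hT.s12 hz⟩

/-- Case (a): three independent vertices cover all edges. -/
theorem emb_a {T : α → α → α → Prop} (hT : Tri T) (a b c : V)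
    (hG : ∀ u v, G.Adj u v → ((u = a ∨ u = b ∨ u = c) ↔ ¬ (v = a ∨ v = b ∨ v = c)))
    (x y z : α) (hxy : x ≠ y) (hxz : x ≠ z) (hyz : y ≠ z)
    (h : 2 * Fintype.card V ≤ (AA T x ∩ AA T y ∩ AA T z).card) :
    ∃ f : V → α, Function.Injective f ∧ ∀ u v, G.Adj u v → Ad T (f u) (f v) := by
  classical
  refine extend (Ad T) hT.ad_symm (fun u => u = a ∨ u = b ∨ u = c)
    (fun v => if v = a then x else if v = b then y else z)
    (fun _ => AA T x ∩ AA T y ∩ AA T z) (fun _ => h) ?_ ?_ ?_ ?_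
  · intro u v hu hv e
    split_ifs at e <;> grind
  · intro u v hu hv huv
    exact absurd hv ((hG u v huv).mp hu)
  · intro u v _ _ _ w hw
    simp only [mem_inter, mem_AA] at hw
    split_ifs
    exacts [hw.1.1, hw.1.2, hw.2]
  · intro u v huv
    by_cases hv : v = a ∨ v = b ∨ v = c
    · exact Or.inr hv
    · exact Or.inl ((hG u v huv).mpr hv)

/-- Case (b): two independent vertices cover all edges but one. -/
theorem emb_b {T : α → α → α → Prop} (hT : Tri T) (a b p q : V) (hab : a ≠ b) (hpq : p ≠ q)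
    (hp : ¬ (p = a ∨ p = b)) (hq : ¬ (q = a ∨ q = b))
    (hG : ∀ u v, G.Adj u v → ((u = a ∨ u = b) ∧ ¬ (v = a ∨ v = b)) ∨
      (¬ (u = a ∨ u = b) ∧ (v = a ∨ v = b)) ∨ s(u, v) = s(p, q))
    (x y z w : α) (hxy : x ≠ y) (h1 : T z w x) (h2 : T z w y)
    (h : 2 * Fintype.card V ≤ (AA T x ∩ AA T y).card) :
    ∃ f : V → α, Function.Injective f ∧ ∀ u v, G.Adj u v → Ad T (f u) (f v) := by
  classical
  have a1 : Ad T z w := ⟨_, h1⟩
  have a2 : Ad T z x := ⟨_, hT.s23 h1⟩
  have a3 : Ad T z y := ⟨_, hT.s23 h2⟩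
  have a4 : Ad T w x := ⟨_, hT.s23 (hT.s12 h1)⟩
  have a5 : Ad T w y := ⟨_, hT.s23 (hT.s12 h2)⟩
  have hne : ∀ s t, Ad T s t → s ≠ t := fun s t ⟨_, h⟩ => hT.ne h
  have b1 := hne _ _ a1
  have b2 := hne _ _ a2
  have b3 := hne _ _ a3
  have b4 := hne _ _ a4
  have b5 := hne _ _ a5
  have c1 := hT.ad_symm _ _ a1
  have c2 := hT.ad_symm _ _ a2
  have c3 := hT.ad_symm _ _ a3
  have c4 := hT.ad_symm _ _ a4
  have c5 := hT.ad_symm _ _ a5
  refine extend (Ad T) hT.ad_symm (fun u => u = a ∨ u = b ∨ u = p ∨ u = q)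
    (fun v => if v = a then x else if v = b then y else if v = p then z else w)
    (fun _ => AA T x ∩ AA T y) (fun _ => h) ?_ ?_ ?_ ?_
  · intro u v hu hv e
    split_ifs at e <;> grind
  · intro u v hu hv huv
    have := hG u v huv
    have := huv.ne
    split_ifs <;> first | assumption | (exfalso; simp only [Sym2.eq_iff] at *; grind)
  · intro u v hu hv huv r hr
    simp only [mem_inter, mem_AA] at hr
    have := hG u v huv
    simp only [Sym2.eq_iff] at this
    split_ifs
    · exact hr.1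
    · exact hr.2
    · exfalso; grind
    · exfalso; grind
  · intro u v huv
    have := hG u v huv
    simp only [Sym2.eq_iff] at this
    grind

/-- Case (c), core form. -/
theorem emb_c0 {T : α → α → α → Prop} (hT : Tri T)
    (hf : ∀ x y z, T x y z → 2 * Fintype.card V ≤ (NN T x y).card) (a b c : V)
    (hG : ∀ u v, G.Adj u v → (u = a ∨ u = b ∨ u = c) ∨ (v = a ∨ v = b ∨ v = c))
    (hG2 : ∀ v, G.Adj a v → G.Adj b v → G.Adj c v → ¬ (v = a ∨ v = b ∨ v = c) → c = a ∨ c = b)
    (x y z : α) (h : T x y z) :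
    ∃ f : V → α, Function.Injective f ∧ ∀ u v, G.Adj u v → Ad T (f u) (f v) := by
  classical
  have a1 : Ad T x y := ⟨_, h⟩
  have a2 : Ad T x z := ⟨_, hT.s23 h⟩
  have a3 : Ad T y z := ⟨_, hT.s23 (hT.s12 h)⟩
  have hne : ∀ s t, Ad T s t → s ≠ t := fun s t ⟨_, h⟩ => hT.ne h
  have b1 := hne _ _ a1
  have b2 := hne _ _ a2
  have b3 := hne _ _ a3
  have c1 := hT.ad_symm _ _ a1
  have c2 := hT.ad_symm _ _ a2
  have c3 := hT.ad_symm _ _ a3
  have k1 : ∀ s t w, w ∈ NN T s t → Ad T s w := fun s t w hw => ⟨_, hT.s23 (mem_NN.mp hw)⟩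
  have k2 : ∀ s t w, w ∈ NN T s t → Ad T t w := fun s t w hw =>
    ⟨_, hT.s23 (hT.s12 (mem_NN.mp hw))⟩
  refine extend (Ad T) hT.ad_symm (fun u => u = a ∨ u = b ∨ u = c)
    (fun v => if v = a then x else if v = b then y else z)
    (fun v => if ¬ G.Adj a v then NN T y z else if ¬ G.Adj b v then NN T x z else NN T x y)
    (fun v => ?_) ?_ ?_ ?_ hG
  · split_ifs
    · exact hf _ _ _ h
    · exact hf _ _ _ (hT.s23 h)
    · exact hf _ _ _ (hT.s23 (hT.s12 h))
  · intro u v hu hv e
    split_ifs at e <;> grind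
  · intro u v hu hv huv
    have := huv.ne
    split_ifs <;> first | assumption | (exfalso; grind)
  · intro u v hu hv huv w hw
    have := hG2 v
    split_ifs at hw ⊢ <;>
      first | exact k1 _ _ _ hw | exact k2 _ _ _ hw | (exfalso; grind)

/-- Case (c): one vertex covers all edges but two. -/
theorem emb_c {T : α → α → α → Prop} (hT : Tri T)
    (hf : ∀ x y z, T x y z → 2 * Fintype.card V ≤ (NN T x y).card) (a : V) (e1 e2 : Sym2 V)
    (hG : ∀ u v, G.Adj u v → u = a ∨ v = a ∨ s(u, v) = e1 ∨ s(u, v) = e2)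
    (x y z : α) (h : T x y z) :
    ∃ f : V → α, Function.Injective f ∧ ∀ u v, G.Adj u v → Ad T (f u) (f v) := by
  by_cases hm : ∃ m, ∀ u v, G.Adj u v → (u = a ∨ u = m) ∨ (v = a ∨ v = m)
  · obtain ⟨m, hm⟩ := hm
    refine emb_c0 hT hf a m m (fun u v huv => ?_) (fun _ _ _ _ _ => Or.inr rfl) x y z h
    have := hm u v huv
    grind
  · induction e1 using Sym2.ind with
    | _ u1 v1 =>
    induction e2 using Sym2.ind with
    | _ u2 v2 =>
    simp only [Sym2.eq_iff] at hG
    refine emb_c0 hT hf a u1 u2 (fun u v huv => ?_) (fun v h1 h2 h3 h4 => ?_) x y z h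
    · have := hG u v huv
      grind
    · by_contra h5
      apply hm
      by_cases e : u1 = a
      · refine ⟨u2, fun s t hst => ?_⟩
        have := hG s t hst
        grind
      · refine ⟨v, fun s t hst => ?_⟩
        have k0 := hG s t hst
        have k2 := hG _ _ h2
        have k3 := hG _ _ h3
        grind

/-- An embedding of the graph in the shadow extends to the expansion. -/
theorem expand {T : α → α → α → Prop} (hT : Tri T)
    (hf : ∀ x y z, T x y z → Fintype.card V + Nat.card G.edgeSet ≤ (NN T x y).card)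
    (f : V → α) (hA : ∀ u v, G.Adj u v → Ad T (f u) (f v)) :
    ∃ g : G.edgeSet → α, Function.Injective g ∧ (∀ e x, g e ≠ f x) ∧
      ∀ (u v : V) (h : G.Adj u v),
        T (f u) (f v) (g ⟨s(u, v), (SimpleGraph.mem_edgeSet G).mpr h⟩) := by
  classical
  have hsym : ∀ x y, NN T x y = NN T y x := fun x y => by
    ext z; simp only [mem_NN]; exact ⟨hT.s12, hT.s12⟩
  let W : Sym2 V → Finset α := Sym2.lift ⟨fun u v => NN T (f u) (f v), fun u v => hsym _ _⟩
  obtain ⟨g, hg, hgW⟩ := sdr (fun e : G.edgeSet => W e.1 \ univ.image f) (by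
    rintro ⟨e, he⟩
    induction e using Sym2.ind with
    | _ u v =>
    obtain ⟨z, hz⟩ := hA u v he
    have a := hf _ _ _ hz
    have b : (univ.image f).card ≤ Fintype.card V := le_trans card_image_le (by simp)
    have c := le_card_sdiff (univ.image f) (NN T (f u) (f v))
    rw [Nat.card_eq_fintype_card] at a
    simp only [W, Sym2.lift_mk]
    omega)
  refine ⟨g, hg, fun e x h => (mem_sdiff.mp (hgW e)).2 (mem_image.mpr ⟨x, mem_univ _, h.symm⟩),
    fun u v h => ?_⟩
  have := (mem_sdiff.mp (hgW ⟨s(u, v), (SimpleGraph.mem_edgeSet G).mpr h⟩)).1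
  simp only [W, Sym2.lift_mk] at this
  exact mem_NN.mp this

end Pool.Agent.H360Z.Exp
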