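import Pool.Agent.H360Z.Exp.Emb

/-! Expansions with crosscut number three have quadratic Turan number. -/

set_option autoImplicit false

namespace Pool.Agent.H360Z.Exp

open Finset

variable {V : Type} {G : SimpleGraph V}

/-- The three shapes of a graph whose expansion has a crosscut of size three. -/
theorem shapes (X : Finset (V ⊕ G.edgeSet)) (hX : X.card = 3)
    (h : ∀ (u v : V) (h : G.Adj u v),
          ((Sum.inl u : V ⊕ G.edgeSet) ∈ X ∧ (Sum.inl v : V ⊕ G.edgeSet) ∉ X ∧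
              (Sum.inr ⟨s(u, v), (SimpleGraph.mem_edgeSet G).mpr h⟩ : V ⊕ G.edgeSet) ∉ X) ∨
          ((Sum.inl u : V ⊕ G.edgeSet) ∉ X ∧ (Sum.inl v : V ⊕ G.edgeSet) ∈ X ∧
              (Sum.inr ⟨s(u, v), (SimpleGraph.mem_edgeSet G).mpr h⟩ : V ⊕ G.edgeSet) ∉ X) ∨
          ((Sum.inl u : V ⊕ G.edgeSet) ∉ X ∧ (Sum.inl v : V ⊕ G.edgeSet) ∉ X ∧
              (Sum.inr ⟨s(u, v), (SimpleGraph.mem_edgeSet G).mpr h⟩ : V ⊕ G.edgeSet) ∈ X)) :
    (∃ a b c : V, ∀ u v, G.Adj u v → ((u = a ∨ u = b ∨ u = c) ↔ ¬ (v = a ∨ v = b ∨ v = c))) ∨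
    (∃ a b p q : V, a ≠ b ∧ p ≠ q ∧ ¬ (p = a ∨ p = b) ∧ ¬ (q = a ∨ q = b) ∧
      ∀ u v, G.Adj u v → ((u = a ∨ u = b) ∧ ¬ (v = a ∨ v = b)) ∨
        (¬ (u = a ∨ u = b) ∧ (v = a ∨ v = b)) ∨ s(u, v) = s(p, q)) ∨
    (∃ (a : V) (e1 e2 : Sym2 V),
      ∀ u v, G.Adj u v → u = a ∨ v = a ∨ s(u, v) = e1 ∨ s(u, v) = e2) := by
  classical
  have caseB : ∀ (a b : V) (e : G.edgeSet), a ≠ b →
      (∀ x, x ∈ X ↔ x = Sum.inl a ∨ x = Sum.inl b ∨ x = Sum.inr e) →
      (∃ a b p q : V, a ≠ b ∧ p ≠ q ∧ ¬ (p = a ∨ p = b) ∧ ¬ (q = a ∨ q = b) ∧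
      ∀ u v, G.Adj u v → ((u = a ∨ u = b) ∧ ¬ (v = a ∨ v = b)) ∨
        (¬ (u = a ∨ u = b) ∧ (v = a ∨ v = b)) ∨ s(u, v) = s(p, q)) := by
    rintro a b ⟨e, he⟩ hab hmem
    induction e using Sym2.ind with
    | _ p q =>
    have hpq : G.Adj p q := he
    have h1 := h p q hpq
    simp only [hmem, Sum.inl.injEq, Sum.inr.injEq, reduceCtorEq, or_false, false_or,
      not_true_eq_false, and_false, and_true] at h1
    refine ⟨a, b, p, q, hab, hpq.ne, h1.1, h1.2, fun u v huv => ?_⟩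
    have h2 := h u v huv
    simp only [hmem, Sum.inl.injEq, Sum.inr.injEq, reduceCtorEq, or_false, false_or,
      Subtype.mk.injEq] at h2
    tauto
  have caseC : ∀ (a : V) (e1 e2 : G.edgeSet),
      (∀ x, x ∈ X ↔ x = Sum.inl a ∨ x = Sum.inr e1 ∨ x = Sum.inr e2) →
      (∃ (a : V) (e1 e2 : Sym2 V),
      ∀ u v, G.Adj u v → u = a ∨ v = a ∨ s(u, v) = e1 ∨ s(u, v) = e2) := by
    rintro a ⟨e1, he1⟩ ⟨e2, he2⟩ hmem
    refine ⟨a, e1, e2, fun u v huv => ?_⟩
    have h2 := h u v huv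
    simp only [hmem, Sum.inl.injEq, Sum.inr.injEq, reduceCtorEq, or_false, false_or,
      Subtype.mk.injEq] at h2
    tauto
  obtain ⟨x, y, z, hxy, hxz, hyz, rfl⟩ := card_eq_three.mp hX
  rcases x with a | e1 <;> rcases y with b | e2 <;> rcases z with c | e3
  · refine Or.inl ⟨a, b, c, fun u v huv => ?_⟩
    have h2 := h u v huv
    simp only [mem_insert, mem_singleton, Sum.inl.injEq, reduceCtorEq, or_false] at h2
    tauto
  · exact Or.inr (Or.inl (caseB a b e3 (fun e => hxy (by rw [e])) (fun x => by simp)))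
  · exact Or.inr (Or.inl (caseB a c e2 (fun e => hxz (by rw [e]))
      (fun x => by simp only [mem_insert, mem_singleton]; tauto)))
  · exact Or.inr (Or.inr (caseC a e2 e3 (fun x => by simp)))
  · exact Or.inr (Or.inl (caseB b c e1 (fun e => hyz (by rw [e]))
      (fun x => by simp only [mem_insert, mem_singleton]; tauto)))
  · exact Or.inr (Or.inr (caseC b e1 e3
      (fun x => by simp only [mem_insert, mem_singleton]; tauto)))
  · exact Or.inr (Or.inr (caseC c e1 e2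
      (fun x => by simp only [mem_insert, mem_singleton]; tauto)))
  · obtain ⟨e3, he3⟩ := e3
    induction e3 using Sym2.ind with
    | _ p q =>
    refine Or.inr (Or.inr ⟨p, e1.1, e2.1, fun u v huv => ?_⟩)
    have h2 := h u v huv
    simp only [mem_insert, mem_singleton, Sum.inr.injEq, reduceCtorEq, or_false, false_and,
      and_false, false_or, not_false_eq_true, true_and] at h2
    rcases h2 with h2 | h2 | h2
    · exact Or.inr (Or.inr (Or.inl (by rw [← h2])))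
    · exact Or.inr (Or.inr (Or.inr (by rw [← h2])))
    · have h3 : s(u, v) = s(p, q) := congrArg Subtype.val h2
      rcases Sym2.eq_iff.mp h3 with h4 | h4
      · exact Or.inl h4.1
      · exact Or.inr (Or.inl h4.2)

/-- Upper bound. -/
theorem upper [Fintype V] (X : Finset (V ⊕ G.edgeSet)) (hX : X.card = 3)
    (h : ∀ (u v : V) (h : G.Adj u v),
          ((Sum.inl u : V ⊕ G.edgeSet) ∈ X ∧ (Sum.inl v : V ⊕ G.edgeSet) ∉ X ∧
              (Sum.inr ⟨s(u, v), (SimpleGraph.mem_edgeSet G).mpr h⟩ : V ⊕ G.edgeSet) ∉ X) ∨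
          ((Sum.inl u : V ⊕ G.edgeSet) ∉ X ∧ (Sum.inl v : V ⊕ G.edgeSet) ∈ X ∧
              (Sum.inr ⟨s(u, v), (SimpleGraph.mem_edgeSet G).mpr h⟩ : V ⊕ G.edgeSet) ∉ X) ∨
          ((Sum.inl u : V ⊕ G.edgeSet) ∉ X ∧ (Sum.inl v : V ⊕ G.edgeSet) ∉ X ∧
              (Sum.inr ⟨s(u, v), (SimpleGraph.mem_edgeSet G).mpr h⟩ : V ⊕ G.edgeSet) ∈ X)) :
    ∃ C : ℕ, ∀ (n : ℕ) (H : Finset (Finset (Fin n))),
      (∀ e ∈ H, e.card = 3) →
      (¬ ∃ f : V → Fin n, Function.Injective f ∧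
          ∃ g : G.edgeSet → Fin n, Function.Injective g ∧
            (∀ (e : G.edgeSet) (x : V), g e ≠ f x) ∧
            ∀ (u v : V) (h : G.Adj u v),
              ({f u, f v, g ⟨s(u, v), (SimpleGraph.mem_edgeSet G).mpr h⟩} : Finset (Fin n)) ∈ H) →
      H.card ≤ C * n ^ 2 := by
  obtain ⟨t, ht⟩ : ∃ t, t = 2 * Fintype.card V := ⟨_, rfl⟩
  obtain ⟨d, hd⟩ : ∃ d, d = 2 * Fintype.card V + Nat.card G.edgeSet + 2 := ⟨_, rfl⟩
  refine ⟨(2 + t * (t + 3)) + d, fun n H h3 hno => ?_⟩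
  obtain ⟨K, hKH, hK1, hK2⟩ := exists_full H h3 d
  have hK3 : ∀ e ∈ K, e.card = 3 := fun e he => h3 e (hKH he)
  have hT := tri_of K hK3
  have hc := card_le_cnt K hK3
  have hnoemb : ¬ ∃ f : V → Fin n, Function.Injective f ∧ ∀ u v, G.Adj u v →
      Ad (fun x y z => ({x, y, z} : Finset (Fin n)) ∈ K) (f u) (f v) := by
    rintro ⟨f, hf, hA⟩
    obtain ⟨g, hg1, hg2, hg3⟩ := expand (G := G) hT
      (fun x y z hxyz => le_trans (by omega) (hK2 x y z hxyz)) f hA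
    exact hno ⟨f, hf, g, hg1, hg2, fun u v huv => hKH (hg3 u v huv)⟩
  have key : ∑ v, ∑ x, (NN (fun x y z => ({x, y, z} : Finset (Fin n)) ∈ K) v x).card ≤
      (2 + t * (t + 3)) * n ^ 2 := by
    rcases shapes X hX h with ⟨a, b, c, hG⟩ | ⟨a, b, p, q, h1, h2, h3, h4, hG⟩ | ⟨a, e1, e2, hG⟩
    · have := count_a hT (t := t) (fun x y z hxy hxz hyz => by
        by_contra hlt
        exact hnoemb (emb_a hT a b c hG x y z hxy hxz hyz (by omega)))
      simpa using this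
    · have := count_b hT (t := t) (fun x y z hxyz => le_trans (by omega) (hK2 x y z hxyz))
        (fun x y z w hxy k1 k2 => by
          by_contra hlt
          exact hnoemb (emb_b hT a b p q h1 h2 h3 h4 hG x y z w hxy k1 k2 (by omega)))
      rw [Fintype.card_fin] at this
      exact le_trans this (Nat.mul_le_mul_right _ (by nlinarith))
    · refine le_trans (le_of_eq (sum_eq_zero fun x _ => sum_eq_zero fun y _ => ?_))
        (Nat.zero_le _)
      rw [card_eq_zero, eq_empty_iff_forall_notMem]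
      intro z hz
      exact hnoemb (emb_c hT (fun x y z hxyz => le_trans (by omega) (hK2 x y z hxyz))
        a e1 e2 hG x y z (mem_NN.mp hz))
  rw [Fintype.card_fin] at hK1
  rw [add_mul]
  omega

end Pool.Agent.H360Z.Exp
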