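import Mathlib

/-! A graph of treewidth two whose 3-uniform expansion has a large Turan number. -/

set_option autoImplicit false

namespace Pool.Agent.H360Z.Exp

open Finset

/-- The tree on `Fin n` given by parent pointers. -/
def parTree (n : ℕ) (par : ℕ → ℕ) : SimpleGraph (Fin n) where
  Adj i j := (j < i ∧ par i = j) ∨ (i < j ∧ par j = i)
  symm := ⟨fun _ _ h => h.symm⟩
  loopless := ⟨fun _ h => by rcases h with h | h <;> exact lt_irrefl _ h.1⟩

theorem parTree_isTree {n : ℕ} (hn : 0 < n) {par : ℕ → ℕ}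
    (hp : ∀ i, 0 < i → i < n → par i < i) : (parTree n par).IsTree := by
  refine ⟨?_, ?_⟩
  · have key : ∀ k (hk : k < n), (parTree n par).Reachable ⟨k, hk⟩ ⟨0, hn⟩ := by
      intro k
      induction k using Nat.strong_induction_on with
      | _ k ih =>
      intro hk
      rcases Nat.eq_zero_or_pos k with rfl | h0
      · rfl
      · have h1 := hp k h0 hk
        exact (SimpleGraph.Adj.reachable (G := parTree n par) (v := ⟨par k, h1.trans hk⟩)
          (Or.inl ⟨h1, rfl⟩)).trans (ih _ h1 _)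
    have : Nonempty (Fin n) := ⟨⟨0, hn⟩⟩
    exact ⟨fun u v => (key u.1 u.2).trans (key v.1 v.2).symm⟩
  · have main : ∀ i j : Fin n, j < i → par i = j →
        ¬ ((parTree n par).deleteEdges {s(i, j)}).Reachable i j := by
      intro i j hji hpar hreach
      have hle : ∀ x : ℕ, Relation.ReflTransGen (fun a b => b < a ∧ par a = b) x i →
          (i : ℕ) ≤ x := by
        intro x hx
        induction hx using Relation.ReflTransGen.head_induction_on with
        | refl => exact le_rfl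
        | head h _ ih => omega
      have hcl : ∀ x : Fin n, ((parTree n par).deleteEdges {s(i, j)}).Reachable i x →
          Relation.ReflTransGen (fun a b : ℕ => b < a ∧ par a = b) x i := by
        intro x hx
        rw [SimpleGraph.reachable_iff_reflTransGen] at hx
        induction hx with
        | refl => exact Relation.ReflTransGen.refl
        | tail _ hxy ih =>
          rename_i x y _
          rw [SimpleGraph.deleteEdges_adj] at hxy
          rcases hxy.1 with h | h
          · rcases ih.cases_head with e | ⟨c, hc, hc'⟩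
            · exfalso
              apply hxy.2
              have e1 : x = i := Fin.ext e
              have e2 : y = j := Fin.ext (by rw [← h.2, ← hpar, e])
              rw [e1, e2]; rfl
            · rw [← h.2, hc.2]; exact hc'
          · exact Relation.ReflTransGen.head ⟨h.1, h.2⟩ ih
      have := hle _ (hcl j hreach)
      exact absurd hji (not_lt.mpr this)
    rw [SimpleGraph.isAcyclic_iff_forall_adj_isBridge]
    intro u v huv
    rcases huv with h | h
    · exact SimpleGraph.isBridge_iff.mpr (main u v h.1 h.2)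
    · rw [Sym2.eq_swap]
      exact SimpleGraph.isBridge_iff.mpr (main v u h.1 h.2)

/-- A walk inside an induced connected subgraph. -/
theorem walk_in {W : Type} {T : SimpleGraph W} {A : Set W} (h : (T.induce A).Connected)
    {x y : W} (hx : x ∈ A) (hy : y ∈ A) : ∃ p : T.Walk x y, ∀ z ∈ p.support, z ∈ A := by
  obtain ⟨p⟩ := h.preconnected ⟨x, hx⟩ ⟨y, hy⟩
  refine ⟨p.map (SimpleGraph.Embedding.induce A).toHom, fun z hz => ?_⟩
  have hz' := (SimpleGraph.Walk.support_map (SimpleGraph.Embedding.induce A).toHom p) ▸ hz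
  obtain ⟨a, _, rfl⟩ := List.mem_map.mp hz'
  exact a.2

/-- Helly property for three subtrees of a tree. -/
theorem helly {W : Type} {T : SimpleGraph W} (hT : T.IsAcyclic) {A B C : Set W}
    (hA : (T.induce A).Connected) (hB : (T.induce B).Connected) (hC : (T.induce C).Connected)
    {x y z : W} (hxA : x ∈ A) (hxB : x ∈ B) (hyA : y ∈ A) (hyC : y ∈ C) (hzB : z ∈ B)
    (hzC : z ∈ C) : ∃ w, w ∈ A ∧ w ∈ B ∧ w ∈ C := by
  classical
  by_contra hno
  push Not at hno
  obtain ⟨P, hP⟩ := walk_in hA hxA hyA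
  obtain ⟨Q, hQ⟩ := walk_in hC hyC hzC
  obtain ⟨R, hR⟩ := walk_in hB hxB hzB
  have heq : (P.append Q).toPath = R.toPath := (hT.subsingleton_path _ _).elim _ _
  have hzA : z ∉ A := fun h => hno z h hzB hzC
  obtain ⟨d, hd, hd1, hd2⟩ := (R.toPath : T.Walk x z).exists_boundary_dart A hxA hzA
  have hB1 : d.fst ∈ B :=
    hR _ (R.support_toPath_subset_support (SimpleGraph.Walk.dart_fst_mem_support_of_mem_darts _ hd))
  have he : d.edge ∈ (R.toPath : T.Walk x z).edges := List.mem_map_of_mem hd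
  rw [← heq] at he
  have he2 := (P.append Q).edges_toPath_subset_edges he
  rw [SimpleGraph.Walk.edges_append, List.mem_append] at he2
  rcases he2 with h | h
  · exact hd2 (hP _ (P.snd_mem_support_of_mem_edges (t := d.fst) (u := d.snd) h))
  · exact hno _ hd1 hB1 (hQ _ (Q.fst_mem_support_of_mem_edges (t := d.fst) (u := d.snd) h))

/-- parent pointers -/
def par (i : ℕ) : ℕ := if i < 3 then 0 else if i < 6 then i - 3 else (i - 6) / 11 + 3

/-- The graph: a triangle `0,1,2`, hubs `3,4,5`, and eleven leaves at each hub. -/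
def GG : SimpleGraph (Fin 39) where
  Adj i j := (j < i ∧ par i = j) ∨ (i < j ∧ par j = i) ∨ (i = 1 ∧ j = 2) ∨ (i = 2 ∧ j = 1)
  symm := ⟨fun _ _ h => by
    rcases h with h | h | h | h
    · exact Or.inr (Or.inl h)
    · exact Or.inl h
    · exact Or.inr (Or.inr (Or.inr ⟨h.2, h.1⟩))
    · exact Or.inr (Or.inr (Or.inl ⟨h.2, h.1⟩))⟩
  loopless := ⟨fun _ h => by
    rcases h with h | h | h | h
    · exact lt_irrefl _ h.1
    · exact lt_irrefl _ h.1
    · exact absurd (h.1.symm.trans h.2) (by decide)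
    · exact absurd (h.1.symm.trans h.2) (by decide)⟩

instance : DecidableRel GG.Adj := fun i j =>
  inferInstanceAs (Decidable ((j < i ∧ par i = j) ∨ (i < j ∧ par j = i) ∨ (i = 1 ∧ j = 2) ∨
    (i = 2 ∧ j = 1)))

instance : DecidableRel (parTree 39 par).Adj := fun i j =>
  inferInstanceAs (Decidable ((j < i ∧ par i = j) ∨ (i < j ∧ par j = i)))

/-- parent as an element of `Fin 39` -/
def parF (i : Fin 39) : Fin 39 := ⟨par i, by unfold par; split_ifs <;> omega⟩

/-- bags -/
def bag (i : Fin 39) : Finset (Fin 39) := if i = 0 then {0, 1, 2} else {i, parF i}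

theorem tw_le : ∃ (m : ℕ) (T : SimpleGraph (Fin m)) (B : Fin m → Finset (Fin 39)),
      T.IsTree ∧ (∀ i, (B i).card ≤ 3) ∧ (∀ v, ∃ i, v ∈ B i) ∧
      (∀ u v, GG.Adj u v → ∃ i, u ∈ B i ∧ v ∈ B i) ∧
      (∀ v, (T.induce {i | v ∈ B i}).Connected) := by
  have hself : ∀ v, v ∈ bag v := by decide +kernel
  have hstar : ∀ v i, v ∈ bag i → i = v ∨ (parTree 39 par).Adj i v := by decide +kernel
  refine ⟨39, parTree 39 par, bag, parTree_isTree (by norm_num) ?_, by decide +kernel,
    fun v => ⟨v, hself v⟩, ?_, fun v => ?_⟩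
  · intro i h0 h1
    unfold par; split_ifs <;> omega
  · have : ∀ u v, GG.Adj u v → (u ∈ bag u ∧ v ∈ bag u) ∨ (u ∈ bag v ∧ v ∈ bag v) ∨
        (u ∈ bag 0 ∧ v ∈ bag 0) := by decide +kernel
    intro u v h
    rcases this u v h with h | h | h <;> exact ⟨_, h⟩
  · have : Nonempty {i | v ∈ bag i} := ⟨⟨v, hself v⟩⟩
    have key : ∀ a : {i | v ∈ bag i},
        ((parTree 39 par).induce {i | v ∈ bag i}).Reachable a ⟨v, hself v⟩ := by
      rintro ⟨i, hi⟩
      rcases hstar v i hi with rfl | h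
      · rfl
      · exact SimpleGraph.Adj.reachable h
    exact ⟨fun a b => (key a).trans (key b).symm⟩

theorem tw_ge : ¬ (∃ (m : ℕ) (T : SimpleGraph (Fin m)) (B : Fin m → Finset (Fin 39)),
      T.IsTree ∧ (∀ i, (B i).card ≤ 2) ∧ (∀ v, ∃ i, v ∈ B i) ∧
      (∀ u v, GG.Adj u v → ∃ i, u ∈ B i ∧ v ∈ B i) ∧
      (∀ v, (T.induce {i | v ∈ B i}).Connected)) := by
  rintro ⟨m, T, B, hT, h2, -, he, hc⟩
  obtain ⟨x, hx⟩ := he 0 1 (by decide)
  obtain ⟨y, hy⟩ := he 0 2 (by decide)
  obtain ⟨z, hz⟩ := he 1 2 (by decide)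
  obtain ⟨w, h0, h1, h2'⟩ := helly hT.isAcyclic (hc 0) (hc 1) (hc 2) hx.1 hx.2 hy.1 hy.2 hz.1 hz.2
  have hsub : ({0, 1, 2} : Finset (Fin 39)) ⊆ B w := by
    intro a ha
    simp only [mem_insert, mem_singleton] at ha
    rcases ha with rfl | rfl | rfl
    exacts [h0, h1, h2']
  have := card_le_card hsub
  have h3 : ({0, 1, 2} : Finset (Fin 39)).card = 3 := by decide
  have := h2 w
  omega

theorem sigma_le : sInf {c : ℕ | ∃ S : Finset (Fin 39),
          (∀ u ∈ S, ∀ v ∈ S, ¬ GG.Adj u v) ∧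
          c = S.card + {e ∈ GG.edgeSet | ∀ v ∈ e, v ∉ S}.ncard} ≤ 6 := by
  refine le_trans (Nat.sInf_le ⟨{3, 4, 5}, by decide +kernel, rfl⟩) ?_
  have h3 : ({3, 4, 5} : Finset (Fin 39)).card = 3 := by decide
  have hsub : {e ∈ GG.edgeSet | ∀ v ∈ e, v ∉ ({3, 4, 5} : Finset (Fin 39))} ⊆
      ((({s(0, 1), s(0, 2), s(1, 2)} : Finset (Sym2 (Fin 39)))) : Set (Sym2 (Fin 39))) := by
    have key : ∀ u v : Fin 39, GG.Adj u v → u ∉ ({3, 4, 5} : Finset (Fin 39)) →
        v ∉ ({3, 4, 5} : Finset (Fin 39)) →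
        s(u, v) ∈ ({s(0, 1), s(0, 2), s(1, 2)} : Finset (Sym2 (Fin 39))) := by decide +kernel
    intro e he
    induction e using Sym2.ind with
    | _ u v =>
      exact key u v he.1 (he.2 u (Sym2.mem_mk_left _ _)) (he.2 v (Sym2.mem_mk_right _ _))
  have := Set.ncard_le_ncard hsub (Finset.finite_toSet _)
  rw [Set.ncard_coe_finset] at this
  have h4 : ({s(0, 1), s(0, 2), s(1, 2)} : Finset (Sym2 (Fin 39))).card ≤ 3 := card_le_three
  omega

/-- colouring of the host vertex set -/
def col (t : ℕ) (x : Fin (11 + 2 * t)) : Fin 3 :=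
  if (x : ℕ) < 11 then 0 else if (x : ℕ) < 11 + t then 1 else 2

/-- the complete 3-partite 3-graph with parts of sizes `11, t, t` -/
def HH (t : ℕ) : Finset (Finset (Fin (11 + 2 * t))) :=
  (powersetCard 3 univ).filter (fun h => ∀ c : Fin 3, ∃ x ∈ h, col t x = c)

theorem HH_card3 (t : ℕ) : ∀ h ∈ HH t, h.card = 3 := fun _ hh =>
  (mem_powersetCard.mp (mem_filter.mp hh).1).2

theorem HH_col {t : ℕ} {p q r : Fin (11 + 2 * t)} (h : ({p, q, r} : Finset _) ∈ HH t) :
    col t p ≠ col t q ∧ (col t p = 0 ∨ col t q = 0 ∨ col t r = 0) := by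
  have h1 := (mem_filter.mp h).2
  simp only [mem_insert, mem_singleton, exists_eq_or_imp, exists_eq_left] at h1
  have : ∀ a b c : Fin 3, (∀ d : Fin 3, a = d ∨ b = d ∨ c = d) →
      a ≠ b ∧ (a = 0 ∨ b = 0 ∨ c = 0) := by decide
  exact this _ _ _ h1

theorem HH_card (t : ℕ) : 11 * t * t ≤ (HH t).card := by
  have : (univ : Finset (Fin 11 × Fin t × Fin t)).card = 11 * t * t := by
    simp [mul_assoc]
  rw [← this]
  let f : Fin 11 × Fin t × Fin t → Finset (Fin (11 + 2 * t)) := fun a =>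
    {⟨a.1, by omega⟩, ⟨11 + a.2.1, by omega⟩, ⟨11 + t + a.2.2, by omega⟩}
  refine card_le_card_of_injOn f ?_ ?_
  · rintro ⟨a, b, c⟩ -
    have ha := a.2
    have hb := b.2
    have hc := c.2
    simp only [HH, coe_filter, mem_powersetCard, subset_univ, true_and, Set.mem_ofPred_eq, f]
    refine ⟨?_, ?_⟩
    · rw [card_eq_three]
      refine ⟨_, _, _, ?_, ?_, ?_, rfl⟩ <;> simp only [ne_eq, Fin.mk.injEq] <;> omega
    · intro d
      simp only [mem_insert, mem_singleton, exists_eq_or_imp, exists_eq_left, col]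
      rw [if_pos ha, if_neg (by omega), if_pos (by omega), if_neg (by omega), if_neg (by omega)]
      revert d; decide
  · rintro ⟨a, b, c⟩ - ⟨a', b', c'⟩ - h
    have ha := a.2
    have hb := b.2
    have hc := c.2
    have ha' := a'.2
    have hb' := b'.2
    have hc' := c'.2
    have e1 : (⟨a, by omega⟩ : Fin (11 + 2 * t)) ∈ f (a', b', c') := by
      rw [← h]; simp [f]
    have e2 : (⟨11 + b, by omega⟩ : Fin (11 + 2 * t)) ∈ f (a', b', c') := by
      rw [← h]; simp [f]
    have e3 : (⟨11 + t + c, by omega⟩ : Fin (11 + 2 * t)) ∈ f (a', b', c') := by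
      rw [← h]; simp [f]
    simp only [f, mem_insert, mem_singleton, Fin.mk.injEq] at e1 e2 e3
    refine Prod.ext (Fin.ext ?_) (Prod.ext (Fin.ext ?_) (Fin.ext ?_)) <;> simp only <;> omega

theorem HH_free (t : ℕ) :
    ¬ (∃ (φ : Fin 39 → Fin (11 + 2 * t)) (w : Fin 39 → Fin 39 → Fin (11 + 2 * t)),
              Function.Injective φ ∧
              (∀ u v, GG.Adj u v →
                (∀ x, w u v ≠ φ x) ∧ ({φ u, φ v, w u v} : Finset (Fin (11 + 2 * t))) ∈ HH t) ∧
              (∀ u v u' v', GG.Adj u v → GG.Adj u' v' → w u v = w u' v' →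
                (u = u' ∧ v = v') ∨ (u = v' ∧ v = u'))) := by
  rintro ⟨φ, w, hφ, hw, hinj⟩
  have h01 := (HH_col (hw 0 1 (by decide)).2).1
  have h02 := (HH_col (hw 0 2 (by decide)).2).1
  have h12 := (HH_col (hw 1 2 (by decide)).2).1
  have h0 : ∃ a : Fin 3, col t (φ ⟨a, by omega⟩) = 0 := by
    have : ∀ a b c : Fin 3, a ≠ b → a ≠ c → b ≠ c → a = 0 ∨ b = 0 ∨ c = 0 := by decide
    rcases this _ _ _ h01 h02 h12 with h | h | h
    exacts [⟨0, h⟩, ⟨1, h⟩, ⟨2, h⟩]
  obtain ⟨a, ha⟩ := h0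
  let hub : Fin 39 := ⟨a + 3, by omega⟩
  let leaf : Fin 11 → Fin 39 := fun j => ⟨6 + 11 * a + j, by omega⟩
  have hadj : GG.Adj ⟨a, by omega⟩ hub := by
    refine Or.inr (Or.inl ⟨by simp only [hub, Fin.lt_def]; omega, ?_⟩)
    simp only [hub, par]; split_ifs <;> omega
  have hadj2 : ∀ j, GG.Adj hub (leaf j) := by
    intro j
    refine Or.inr (Or.inl ⟨by simp only [hub, leaf, Fin.lt_def]; omega, ?_⟩)
    simp only [hub, leaf, par]; split_ifs <;> omega
  have hhub : col t (φ hub) ≠ 0 := by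
    rw [← ha]; exact (HH_col (hw _ _ hadj).2).1.symm
  let ψ : Option (Fin 11) → Fin (11 + 2 * t) := fun o =>
    match o with
    | none => φ ⟨a, by omega⟩
    | some j => if col t (φ (leaf j)) = 0 then φ (leaf j) else w hub (leaf j)
  have hcol : ∀ o, col t (ψ o) = 0 := by
    rintro (_ | j)
    · exact ha
    · simp only [ψ]
      split_ifs with h
      · exact h
      · rcases (HH_col (hw _ _ (hadj2 j)).2).2 with h' | h' | h'
        exacts [absurd h' hhub, absurd h' h, h']
  have hlt : ∀ o, (ψ o : ℕ) < 11 := by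
    intro o
    have := hcol o
    unfold col at this
    split_ifs at this with h1 h2
    · exact h1
    · exact absurd this (by decide)
    · exact absurd this (by decide)
  have hleaf : ∀ j j', leaf j = leaf j' → j = j' := by
    intro j j' h
    simp only [leaf, Fin.mk.injEq] at h
    exact Fin.ext (by omega)
  have hna : ∀ j, leaf j ≠ ⟨a, by omega⟩ := by
    intro j h
    simp only [leaf, Fin.mk.injEq] at h
    omega
  have hψ : Function.Injective ψ := by
    rintro (_ | j) (_ | j') h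
    · rfl
    · simp only [ψ] at h
      split_ifs at h
      · exact absurd (hφ h).symm (hna _)
      · exact absurd h.symm ((hw _ _ (hadj2 j')).1 _)
    · simp only [ψ] at h
      split_ifs at h
      · exact absurd (hφ h) (hna _)
      · exact absurd h ((hw _ _ (hadj2 j)).1 _)
    · simp only [ψ] at h
      split_ifs at h
      · rw [hleaf _ _ (hφ h)]
      · exact absurd h.symm ((hw _ _ (hadj2 j')).1 _)
      · exact absurd h ((hw _ _ (hadj2 j)).1 _)
      · rcases hinj _ _ _ _ (hadj2 j) (hadj2 j') h with h' | h'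
        · rw [hleaf _ _ h'.2]
        · exact absurd h'.1 (hadj2 j').ne
  have := Fintype.card_le_of_injective (fun o => (⟨ψ o, hlt o⟩ : Fin 11))
    (fun o o' h => hψ (Fin.ext (by simpa using h)))
  simp at this

theorem not_equiv (f : ℕ → ℝ) (s : ℕ) (hs : s ≤ 6)
    (hf : ∀ t : ℕ, ((11 * t * t : ℕ) : ℝ) ≤ f (11 + 2 * t)) :
    ¬ Asymptotics.IsEquivalent Filter.atTop f
      (fun n : ℕ => ((s : ℝ) - 1) * ((n.choose 2 : ℕ) : ℝ)) := by
  intro h
  have h1 := (Asymptotics.isLittleO_iff.mp h) (c := 1 / 100) (by norm_num)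
  obtain ⟨N, hN⟩ := Filter.eventually_atTop.mp h1
  obtain ⟨t, ht1, ht2⟩ : ∃ t : ℕ, N ≤ t ∧ 200 ≤ t := ⟨N + 200, by omega, by omega⟩
  have h2 := hN (11 + 2 * t) (by omega)
  have h3 := hf t
  have ht' : (200 : ℝ) ≤ t := by exact_mod_cast ht2
  simp only [Pi.sub_apply, Real.norm_eq_abs] at h2
  have hc : (((11 + 2 * t).choose 2 : ℕ) : ℝ) = (11 + 2 * t) * (10 + 2 * t) / 2 := by
    rw [Nat.cast_choose_two]; push_cast; ring
  rw [hc] at h2
  have hs' : (s : ℝ) ≤ 6 := by exact_mod_cast hs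
  have hs0 : (0 : ℝ) ≤ s := Nat.cast_nonneg s
  obtain ⟨c, hcc⟩ : ∃ c : ℝ, c = (11 + 2 * t) * (10 + 2 * t) / 2 := ⟨_, rfl⟩
  rw [← hcc] at h2
  have hc0 : 0 ≤ c := by rw [hcc]; positivity
  have h4 : |((s : ℝ) - 1) * c| ≤ 5 * c := by
    rw [abs_le]; constructor <;> nlinarith
  have h5 := le_abs_self (f (11 + 2 * t) - ((s : ℝ) - 1) * c)
  have h6 : ((s : ℝ) - 1) * c ≤ 5 * c := by nlinarith
  push_cast at h3
  have h7 : 11 * (t : ℝ) * t ≤ 5 * c + 5 / 100 * c := by linarith
  rw [hcc] at h7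
  nlinarith

end Pool.Agent.H360Z.Exp
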